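import Mathlib
import Pool.Agent.H180.Main3

/-!
# Dual `𝓛₁`-spaces of type `κ` and density character at most `2^κ`

Let `κ = #T` be a regular uncountable cardinal. A real `𝓛₁`-space `X` isomorphic to the dual of a Banach space `Y` is
isomorphic to the space of measures on the Cantor cube `{0,1}^T`, in particular to an `L₁(μ)`, if it is not too large
(`Y` has density character at most `κ`; or `X` has density character at most `2^κ` and ranges of operators from
Hilbert spaces into `X` have density character at most `κ`) and not too small (`Y` contains `ℓ₁(κ)`; or `ν ^ ℵ₀ < κ`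
for all `ν < κ` and some operator from a Hilbert space into `X` has range of density character at least `κ`).
-/

set_option autoImplicit false

open Cardinal

namespace Pool.Agent.Results.MP_935088_an.MaximalType

/-- `X` is a script-`L₁` space (the condition of the frozen statement). -/
def ScriptL1 (X : Type) [NormedAddCommGroup X] [NormedSpace ℝ X] : Prop :=
  ∃ lam : ℝ, ∀ F : Submodule ℝ X, FiniteDimensional ℝ F →
    ∃ (n : ℕ) (x : Fin n → X),
      F ≤ Submodule.span ℝ (Set.range x) ∧
      ∀ a : Fin n → ℝ,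
        ‖∑ i, a i • x i‖ ≤ ∑ i, |a i| ∧
        ∑ i, |a i| ≤ lam * ‖∑ i, a i • x i‖

/-- `X` is isomorphic to `L₁(μ)` for some measure `μ`. -/
def IsoL1Mu (X : Type) [NormedAddCommGroup X] [NormedSpace ℝ X] : Prop :=
  ∃ (Ω : Type) (m : MeasurableSpace Ω) (μ : @MeasureTheory.Measure Ω m),
    Nonempty (X ≃L[ℝ] MeasureTheory.Lp ℝ 1 μ)

/-- `Y` contains an isomorphic copy of `ℓ₁(T)`. -/
def ContainsL1 (T : Type) (Y : Type) [NormedAddCommGroup Y] [NormedSpace ℝ Y] : Prop :=
  ∃ J : lp (fun _ : T => ℝ) 1 →L[ℝ] Y, ∃ c : ℝ, 0 < c ∧ ∀ v, c * ‖v‖ ≤ ‖J v‖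

/-- The range of every bounded operator from a real Hilbert space to `X` is contained in the closure of a set indexed
by `T`. -/
def SmallHilbertRanges (T : Type) (X : Type) [NormedAddCommGroup X] [NormedSpace ℝ X] : Prop :=
  ∀ (H : Type) [NormedAddCommGroup H] [InnerProductSpace ℝ H] [CompleteSpace H] (R : H →L[ℝ] X),
    ∃ d : T → X, ∀ g, R g ∈ closure (Set.range d)

/-- There is a bounded operator from a real Hilbert space to `X` whose range is not contained in the closure of a set
of cardinality less than `#T`. -/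
def LargeHilbertRange (T : Type) (X : Type) [NormedAddCommGroup X] [NormedSpace ℝ X] : Prop :=
  ∃ (H : Type) (_ : NormedAddCommGroup H) (_ : InnerProductSpace ℝ H) (_ : CompleteSpace H)
    (R : H →L[ℝ] X), ∀ (T' : Type) (d : T' → X), (∀ g, R g ∈ closure (Set.range d)) → #T ≤ #T'

/-- `X`, isomorphic to the dual of `Y`, is not too large: either `Y` has a dense subset indexed by `T`, or `X` has a
dense subset indexed by the subsets of `T` and ranges of operators from Hilbert spaces to `X` are small. -/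
def UpperCondition (T X Y : Type) [NormedAddCommGroup X] [NormedSpace ℝ X] [NormedAddCommGroup Y] : Prop :=
  (∃ d : T → Y, DenseRange d) ∨ ((∃ d : (T → Bool) → X, DenseRange d) ∧ SmallHilbertRanges T X)

/-- `X`, isomorphic to the dual of `Y`, is not too small: either `Y` contains `ℓ₁(T)`, or `ν ^ ℵ₀ < #T` for all
`ν < #T` and there is an operator from a Hilbert space to `X` with large range. -/
def LowerCondition (T X Y : Type) [NormedAddCommGroup X] [NormedSpace ℝ X] [NormedAddCommGroup Y]
    [NormedSpace ℝ Y] : Prop :=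
  ContainsL1 T Y ∨ ((∀ ν : Cardinal.{0}, ν < #T → ν ^ ℵ₀ < #T) ∧ LargeHilbertRange T X)

/-- Let `X` be a real script-`L₁` space which is isomorphic to the dual of a Banach space `Y`, and let `T` be a set
whose cardinality is a regular uncountable cardinal, such that `UpperCondition T X Y` and `LowerCondition T X Y` hold.
Then `X` is isomorphic to the dual of `C({0,1}^T)`, and to `L₁(μ)` for some measure. -/
theorem result (X : Type) [NormedAddCommGroup X] [NormedSpace ℝ X] [CompleteSpace X]
    (hX : ScriptL1 X) (Y : Type) [NormedAddCommGroup Y] [NormedSpace ℝ Y] [CompleteSpace Y]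
    (hXY : Nonempty (X ≃L[ℝ] (Y →L[ℝ] ℝ))) (T : Type) (hreg : (Cardinal.mk T).IsRegular)
    (hunc : Cardinal.aleph0 < Cardinal.mk T) (hup : UpperCondition T X Y)
    (hlow : LowerCondition T X Y) :
    Nonempty (X ≃L[ℝ] (C(T → Bool, ℝ) →L[ℝ] ℝ)) ∧ IsoL1Mu X := by
  obtain ⟨e⟩ := hXY
  have hT : Infinite T := Cardinal.infinite_iff.2 hreg.aleph0_le
  have hL : H180.HasLoc (Y →L[ℝ] ℝ) :=
    (H180.HasLoc.of_isL1 hX).cpl (H180.Cpl.of_equiv e.symm)
  have hG : H180.HasG Y T := by
    rcases hlow with ⟨J, c, hc, hJ⟩ | ⟨hpow, hB⟩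
    · exact H180.hasG_of_l1 hL hreg hunc J c hc hJ
    · exact H180.hasG_of_hilbB hL hreg hunc hpow (H180.HilbB.of_equiv hB e)
  have hU : H180.Cpl (Y →L[ℝ] ℝ) (H180.MM (T → Bool)) := by
    rcases hup with ⟨d, hd⟩ | ⟨⟨d, hd⟩, hH⟩
    · obtain ⟨ι, U, s, lam, hs⟩ := hL
      obtain ⟨e'⟩ := H180.nonempty_index T
      exact (H180.cpl_up hs.loc d hd).trans (H180.Cpl.of_equiv (H180.MM.cube e'))
    · refine H180.cpl_up2 hL (H180.HilbS.cpl hH (H180.Cpl.of_equiv e.symm)) (fun t => e (d t)) ?_
      exact e.surjective.denseRange.comp hd e.continuous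
  obtain ⟨f⟩ := H180.pelczynski hU hG.cpl (H180.cpl_self T)
  obtain ⟨Ω, m, μ, ⟨g⟩⟩ := H180.exists_L1 (T → Bool)
  exact ⟨⟨e.trans f⟩, Ω, m, μ, ⟨(e.trans f).trans g⟩⟩

end Pool.Agent.Results.MP_935088_an.MaximalType
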